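import Mathlib
import Pool.Agent.Results.MP_95a67a_ag.CodimOneFails
import Pool.Agent.Y241.CO.Poly

/-!
# The codimension one conjecture fails in every dimension, with unbounded codimension

On the projective line bundle `P(O ⊕ O(s))` over `P^{n-1}` (`n ≥ 2`, `s ≥ 1`) there are, for every
`N`, homogeneous polynomials `F_0, …, F_n` of `B(Σ)` without common zero for which
`S_ω / (F_0, …, F_n)_ω` has dimension at least `N`.
-/

set_option autoImplicit false

namespace Pool.Agent.Results.MP_95a67a_ag.UnboundedCodimension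

open MvPolynomial Pool.Agent.Results.MP_95a67a_ag.CodimOneFails Pool.Agent.Y241.CO

/-- The hypotheses of the codimension one conjecture, for the homogeneous polynomials
`F_0, …, F_n` of the degrees `α_0, …, α_n`. -/
def Admissible {n r : ℕ} (Δ : CompleteSimplicialFan n r)
    (F : Fin (n + 1) → MvPolynomial (Fin r) ℂ) (α : Fin (n + 1) → Cl Δ) : Prop :=
  (∀ i, IsWeightedHomogeneous (degX Δ) (F i) (α i)) ∧ (∀ i, F i ∈ irrelevant Δ) ∧
    NoCommonZero Δ F

/-- The dimension of `S_ω / (F_0, …, F_n)_ω`, where `ω` is the critical degree. -/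
noncomputable def codim {n r : ℕ} (Δ : CompleteSimplicialFan n r)
    (F : Fin (n + 1) → MvPolynomial (Fin r) ℂ) (α : Fin (n + 1) → Cl Δ) : Cardinal :=
  Module.rank ℂ (weightedHomogeneousSubmodule ℂ (degX Δ) (critical Δ α) ⧸
    idealPiece Δ F (critical Δ α))

theorem result :
    -- `P(O ⊕ O(s))` over `P^{k+1}`, of dimension `k + 2`, and the polynomials `FP k s b`
    (∀ k s b : ℕ, 0 < s → 0 < b →
      Admissible (fanP k s) (FP k s b) (αP k s b) ∧
      ((s * b : ℕ) : Cardinal) ≤ codim (fanP k s) (FP k s b) (αP k s b)) ∧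
    -- in every dimension `n ≥ 2` there is one variety on which the codimension is unbounded
    (∀ n : ℕ, 2 ≤ n → ∃ Δ : CompleteSimplicialFan n (n + 2), ∀ N : ℕ,
      ∃ (F : Fin (n + 1) → MvPolynomial (Fin (n + 2)) ℂ) (α : Fin (n + 1) → Cl Δ),
        Admissible Δ F α ∧ (N : Cardinal) ≤ codim Δ F α) ∧
    ¬ CodimensionOneConjecture := by
  have h1 : ∀ k s b : ℕ, 0 < s → 0 < b →
      Admissible (fanP k s) (FP k s b) (αP k s b) ∧
      ((s * b : ℕ) : Cardinal) ≤ codim (fanP k s) (FP k s b) (αP k s b) := fun k s b hs hb =>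
    ⟨⟨hom_FP, FP_mem hs hb, noCommonZero_P hs hb⟩, rank_ge hs hb⟩
  refine ⟨h1, ?_, ?_⟩
  · intro n hn
    obtain ⟨k, rfl⟩ : ∃ k, n = k + 2 := ⟨n - 2, by omega⟩
    refine ⟨fanP k 1, fun N => ⟨FP k 1 (N + 1), αP k 1 (N + 1), ?_⟩⟩
    obtain ⟨h2, h3⟩ := h1 k 1 (N + 1) one_pos (Nat.succ_pos N)
    refine ⟨h2, le_trans ?_ h3⟩
    exact_mod_cast (show N ≤ 1 * (N + 1) by omega)
  · intro h
    obtain ⟨⟨h2, h3, h4⟩, h5⟩ := h1 0 1 2 one_pos two_pos
    have h6 := h 2 4 (fanP 0 1) (FP 0 1 2) (αP 0 1 2) h2 h3 h4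
    unfold codim at h5
    rw [h6] at h5
    have h7 : (((1 * 2 : ℕ)) : Cardinal) ≤ ((1 : ℕ) : Cardinal) := by
      rw [Nat.cast_one]; exact h5
    rw [Nat.cast_le] at h7
    omega

end Pool.Agent.Results.MP_95a67a_ag.UnboundedCodimension
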